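import Pool.Agent.PLX.StmtsA

/-! # Squad PLX, row KIL: a bounded relation between eigenvalues is a relation of operators. -/

set_option autoImplicit false

namespace Pool.Agent.PLX.H42

open Module

theorem kil : KilStmt := by
  classical
  intro B _ _ E _ _ f V a k N K ρ w n hD hbs hK hρ hV hE hM hn hle hrel
  have h1 : ∑ i, n i • (w i).1 = 0 := by
    apply LinearMap.ext_on (s := (bl f V ρ : Set B)) (by exact hbs)
    intro x hx
    rw [Finset.mem_coe, mem_bl hD] at hx
    rw [LinearMap.zero_apply]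
    choose c hc1 hc2 hc3 hc4 using fun i => hM i x hx.1 hx.2
    have hcp : ∀ i, 0 < c i := fun i => by have := hc1 i; omega
    obtain ⟨C, hC⟩ : ∃ C, C = ∏ i, c i := ⟨_, rfl⟩
    have hC0 : C ≠ 0 := by
      rw [hC]
      exact Finset.prod_ne_zero_iff.mpr fun i _ => (hcp i).ne'
    have hd : ∀ i, C = (∏ j ∈ Finset.univ.erase i, c j) * c i := by
      intro i
      rw [hC, mul_comm]
      exact (Finset.mul_prod_erase _ _ (Finset.mem_univ i)).symm
    have hdle : ∀ i, ((∏ j ∈ Finset.univ.erase i, c j : ℕ) : ℝ) ≤ K ^ k := by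
      intro i
      rw [Nat.cast_prod]
      calc ∏ j ∈ Finset.univ.erase i, (c j : ℝ) ≤ ∏ j ∈ Finset.univ.erase i, K :=
            Finset.prod_le_prod (fun j _ => Nat.cast_nonneg _) fun j _ => hc2 j
        _ = K ^ (Finset.univ.erase i).card := by rw [Finset.prod_const]
        _ ≤ K ^ k := by
            apply pow_le_pow_right₀ hK
            refine (Finset.card_le_card (Finset.erase_subset _ _)).trans ?_
            rw [Finset.card_univ, Fintype.card_fin]
    have hTx : (∑ i, n i • (w i).1) x = ∑ i, n i • (w i).1 x := by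
      rw [LinearMap.sum_apply]
      rfl
    have hv : C • (∑ i, n i • (w i).1) x =
        ∑ i, n i • ((∏ j ∈ Finset.univ.erase i, c j) • (c i • (w i).1 x)) := by
      rw [hTx, Finset.smul_sum]
      refine Finset.sum_congr rfl fun i _ => ?_
      rw [smul_smul (∏ j ∈ Finset.univ.erase i, c j) (c i), ← hd i, smul_comm]
    have hvV : C • (∑ i, n i • (w i).1) x ∈ V := by
      rw [hv]
      exact V.sum_mem fun i _ => V.zsmul_mem (V.nsmul_mem (hc3 i) _) _
    have hvn : ‖f (C • (∑ i, n i • (w i).1) x)‖ ≤ 1 := by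
      rw [hv, map_sum]
      refine (norm_sum_le _ _).trans ?_
      have h2 : ∀ i ∈ (Finset.univ : Finset (Fin k)),
          ‖f (n i • ((∏ j ∈ Finset.univ.erase i, c j) • (c i • (w i).1 x)))‖ ≤
          (N : ℝ) * (K ^ k * (K * ρ)) := by
        intro i _
        rw [map_zsmul, map_nsmul, ← Int.cast_smul_eq_zsmul ℝ, ← Nat.cast_smul_eq_nsmul ℝ,
          norm_smul, norm_smul]
        have h3 : ‖((n i : ℤ) : ℝ)‖ ≤ (N : ℝ) := by
          rw [Real.norm_eq_abs]
          exact_mod_cast hn i
        have h4 : ‖((∏ j ∈ Finset.univ.erase i, c j : ℕ) : ℝ)‖ ≤ K ^ k := by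
          rw [Real.norm_eq_abs, abs_of_nonneg (Nat.cast_nonneg _)]
          exact hdle i
        have h5 : ‖f (c i • (w i).1 x)‖ ≤ K * ρ :=
          (hc4 i).trans (mul_le_mul_of_nonneg_left hx.2 (by linarith))
        exact mul_le_mul h3 (mul_le_mul h4 h5 (norm_nonneg _) (by positivity))
          (mul_nonneg (norm_nonneg _) (norm_nonneg _)) (Nat.cast_nonneg _)
      refine (Finset.sum_le_sum h2).trans ?_
      rw [Finset.sum_const, Finset.card_univ, Fintype.card_fin, nsmul_eq_mul]
      refine le_trans (le_of_eq ?_) hle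
      ring
    have hva : a (C • (∑ i, n i • (w i).1) x) = 0 := by
      rw [map_nsmul, hTx, map_sum]
      have h6 : ∑ i, a (n i • (w i).1 x) = (∑ i, (n i : ℝ) * (w i).2) * a x := by
        rw [Finset.sum_mul]
        refine Finset.sum_congr rfl fun i _ => ?_
        rw [map_zsmul, hE i x, ← Int.cast_smul_eq_zsmul ℝ, smul_eq_mul]
        ring
      rw [h6, hrel, zero_mul, smul_zero]
    have h7 := hV _ hvV hvn hva
    have h8 : (C : ℚ) • (∑ i, n i • (w i).1) x = 0 := by
      rw [Nat.cast_smul_eq_nsmul ℚ]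
      exact h7
    rcases smul_eq_zero.mp h8 with h9 | h9
    · exact absurd (by exact_mod_cast h9) hC0
    · exact h9
  apply Prod.ext
  · rw [Prod.fst_sum, Prod.fst_zero, ← h1]
    rfl
  · rw [Prod.snd_sum, Prod.snd_zero, ← hrel]
    refine Finset.sum_congr rfl fun i _ => ?_
    rw [Prod.smul_snd, ← Int.cast_smul_eq_zsmul ℝ, smul_eq_mul]

end Pool.Agent.PLX.H42
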